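import Pool.Agent.Lib.MP_5591bc_ag.Jo.FinC

namespace Pool.Agent.Results.MP_5591bc_ag.AllDegrees

open Polynomial Filter Topology Matrix Pool.Agent.Lib.MP_5591bc_ag.M Pool.Agent.Lib.MP_5591bc_ag.N
  Pool.Agent.Lib.MP_5591bc_ag.K Pool.Agent.Lib.MP_5591bc_ag.Rg Pool.Agent.Lib.MP_5591bc_ag.Cv
  Pool.Agent.Lib.MP_5591bc_ag.Hy Pool.Agent.Lib.MP_5591bc_ag.B Pool.Agent.Lib.MP_5591bc_ag.Jo

/-- Families of complements of hypersurfaces `f(t, z, x) = 0` in the affine space of dimension
`n + 1` over a finite cover `q(t, z) = 0` of the space of `k` parameters, unramified over `T ≠ 0`,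
with `h` rational forms of top degree whose periods form a lattice. If the monodromy is connected
(and, for `k ≠ 1`, the period matrix underlies a polarised variation of Hodge structure), a set of
points of the cover of height at most `H`, at which the period matrix lies in a coset, defined over
a field of degree at most `D`, of an algebraic group of any degree that misses a triple bracket of
the Lie algebra of the monodromy group, and which (if `k ≠ 1`) lie outside the Hodge locus and are
not joined inside a weakly special locus, has at most `(C D log H)^C` elements. -/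
theorem result (K : Type) [Field K] [NumberField K] [Algebra K ℂ] (k n h m : ℕ)
    (T : MvPolynomial (Fin k) K) (hT : T ≠ 0) (q : Polynomial (MvPolynomial (Fin k) K))
    (hq : q.Monic) (he : C T ∈ Ideal.span {q, derivative q})
    (B : Fin k → Matrix (Fin h) (Fin h) (Polynomial (MvPolynomial (Fin k) K)))
    (f : MvPolynomial (Fin (n + 1)) (Polynomial (MvPolynomial (Fin k) K)))
    (A : Fin h → MvPolynomial (Fin (n + 1)) (Polynomial (MvPolynomial (Fin k) K))) (a : ℂ)
    (hc : ∀ t z, MvPolynomial.aeval t T ≠ 0 → evz t z q = 0 →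
      ∃ V ∈ 𝓝 t, ∃ P, P t none none = z ∧ PerH T q B f m A a V P) :
    ∃ C : ℕ, ∀ (U : Set (Fin k → ℂ))
      (P : (Fin k → ℂ) → Matrix (Option (Fin h)) (Option (Fin h)) ℂ),
      IsOpen U → IsPreconnected U → PerH T q B f m A a U P →
      (ConnRM U P fun t => P t * single none none 1) →
      ∀ (j : ℕ) (w : Fin h → ℕ) (J : Matrix (Fin h) (Fin h) ℝ), (k = 1 ∨ Pol T U P J j w) →
      ∀ (D : ℕ) (H : ℝ), 2 ≤ H → ∀ S : Finset ((Fin k → ℂ) × ℂ),
        (∀ s ∈ S, MvPolynomial.aeval s.1 T ≠ 0 ∧
          (∀ l, ∃ p : ℤ[X], p ≠ 0 ∧ (∀ i, |(p.coeff i : ℝ)| ≤ H) ∧ aeval (s.1 l) p = 0) ∧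
          ∃ U' P', ContM U P U' P' ∧ s.1 ∈ U' ∧ P' s.1 none none = s.2 ∧
            (k = 1 ∨ HGen j w (fun t => (P' t).submatrix some some) s.1 ∧
              ∀ s' ∈ S, WS T U P (single none none 1) some j w P' s.1
                (s'.1, single none none s'.2) → s' = s) ∧
            ∃ (E : IntermediateField K ℂ) (x : Fin k → E) (z : E), (∀ l, (x l : ℂ) = s.1 l) ∧
              (z : ℂ) = s.2 ∧ FiniteDimensional ℚ E ∧ Module.finrank ℚ E ≤ D ∧
              ∃ G, Cos E ((P' s.1).submatrix some some) G ∧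
                ∃ X ∈ Lg (Mf P' (single none none 1) some s.1),
                ∃ Y ∈ Lg (Mf P' (single none none 1) some s.1),
                ∃ Z ∈ Lg (Mf P' (single none none 1) some s.1), ⁅⁅X, Y⁆, Z⁆ ∉ Lg G) →
        (S.card : ℝ) ≤ (C * D * Real.log H) ^ C := by
  simpa only [Fintype.card_fin] using cntC (r := q.natDegree) ⟨⟨hT, hq, rfl, he⟩, hc⟩

end Pool.Agent.Results.MP_5591bc_ag.AllDegrees
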