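import Pool.Agent.Lib.MP_5591bc_ag.Pl.One

namespace Pool.Agent.Results.MP_5591bc_ag.OffHodgeLocus

open Polynomial Pool.Agent.Lib.MP_5591bc_ag.M Pool.Agent.Lib.MP_5591bc_ag.F
  Pool.Agent.Lib.MP_5591bc_ag.Pl

/-- Period matrices of the curves `y^2 = f(x)(x - t_1)...(x - t_k)` of genus `g`, `f` squarefree of
degree at least two over a number field: outside the Hodge locus (anywhere if `k = 1`) at most
`(C (δ+2) d log H)^(C (δ+1)^(4 k g^2))` points of height at most `H` fail the degree `δ` property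
over a field of degree at most `d`. The rows `r i` are the periods of the holomorphic forms. -/
theorem result (K : Type) [Field K] [NumberField K] [Algebra K ℂ] (f : K[X]) (hf : Squarefree f)
    (h2 : 2 ≤ f.natDegree) (k g : ℕ) (hk : 0 < k) (hg : f.natDegree + k = 2 * g + 1)
    (r : Fin g → Fin (2 * g)) (hr : ∀ i, (r i : ℕ) = i) :
    ∃ C : ℕ, ∀ (δ d : ℕ) (H : ℝ), 2 ≤ H → ∀ S : Finset (Fin k → ℂ),
      (∀ t ∈ S, Function.Injective t ∧ (∀ l, aeval (t l) f ≠ 0) ∧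
        (∀ j, ∃ q : ℤ[X], q ≠ 0 ∧ (∀ i, |(q.coeff i : ℝ)| ≤ H) ∧ aeval (t j) q = 0) ∧
        ∃ (U : Set (Fin k → ℂ)) (P : (Fin k → ℂ) → Matrix (Fin (2 * g)) (Fin (2 * g)) ℂ),
          IsOpen U ∧ IsPreconnected U ∧ IsPerM (fun t z => aeval z f * ∏ l, (z - t l)) U P ∧
          t ∈ U ∧ (k = 1 ∨ HodgeGen (fun s => (P s).submatrix r id) t) ∧
          ∃ (E : IntermediateField K ℂ) (x : Fin k → E), (∀ j, (x j : ℂ) = t j) ∧
            FiniteDimensional ℚ E ∧ Module.finrank ℚ E ≤ d ∧ ¬ GoodV U P δ x) →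
        (S.card : ℝ) ≤ (C * (δ + 2) * d * Real.log H) ^ (C * (δ + 1) ^ (k * (2 * g) ^ 2)) :=
  hyp_off hf h2 hk rfl hg hr

end Pool.Agent.Results.MP_5591bc_ag.OffHodgeLocus
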