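import Pool.Agent.Lib.MP_5591bc_ag.Tw.Main
import Pool.Agent.Lib.MP_5591bc_ag.Tw.ExZ
import Pool.Agent.Lib.MP_5591bc_ag.Tw.Den

namespace Pool.Agent.Results.MP_5591bc_ag.TwistedProduct

open Pool.Agent.Lib.MP_5591bc_ag.A Pool.Agent.Lib.MP_5591bc_ag.Pl Pool.Agent.Lib.MP_5591bc_ag.Tw

/-- The abelian surfaces `E_t × E'_t`, `t ≠ 0, 1`, and `j = 1`: period matrices over an integral
basis exist, the period map is nowhere constant, the Hodge locus is dense, at every algebraic `s`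
the closure of `P(s)` is strictly smaller than the fibre `B_{P,s}`, and infinitely many integers
`s` lie outside the Hodge locus. -/
theorem result :
    (∀ s : Fin 1 → ℂ, s 0 ≠ 0 → s 0 ≠ 1 → ∃ U P, s ∈ U ∧ IsPer2 U P ∧ ZB s (P s)) ∧
    (∀ U P, IsPer2 U P → ∀ s ∈ U, Iso (fun t => hol (P t)) s ∧
      (∃ᶠ t in nhds s, ¬ HodgeGen (fun t => hol (P t)) t) ∧ (IsAlgebraic ℚ (s 0) →
      {X : Matrix (Fin 2 × Fin 2) (Fin 2 × Fin 2) ℂ | X.det ≠ 0 ∧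
        (fun a => X a.1 a.2) ∈ Cl {fun a : (Fin 2 × Fin 2) × Fin 2 × Fin 2 => P s a.1 a.2}} ⊂
      {X | X.det ≠ 0 ∧ pt s X ∈ Cl ((fun t => pt t (P t)) '' U)})) ∧
    {m : ℕ | 2 ≤ m ∧ ∀ U P, IsPer2 U P → (fun _ => (m : ℂ)) ∈ U →
      HodgeGen (fun t => hol (P t)) fun _ => m}.Infinite :=
  ⟨fun _ => ex2z, fun _ _ h _ hs => ⟨tw_iso h hs, tw_den h hs, tw_strict h hs⟩, tw_inf⟩

end Pool.Agent.Results.MP_5591bc_ag.TwistedProduct
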